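import Mathlib
import Pool.Agent.T2F.Final

/-!
Hadwiger's conjecture for graphs whose induced three-vertex paths are met by a set of pairwise joined
edges.
-/

set_option autoImplicit false

namespace Pool.Agent.Results.MP_b47bfb_co.FullTransversal

/-- Let `H` be a subgraph of the finite graph `G` such that any two disjoint edges of `H` are joined
by an edge of `G`, and every induced path on three vertices of `G` has an edge in `H`. If `G` has no
proper colouring with `k` colours then `K_{k+1}` is a minor of `G`. -/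
theorem result {V : Type} [Fintype V] (G H : SimpleGraph V)
    (hsub : ∀ x y, H.Adj x y → G.Adj x y)
    (hjoin : ∀ x y z w, H.Adj x y → H.Adj z w → x ≠ z → x ≠ w → y ≠ z → y ≠ w →
      G.Adj x z ∨ G.Adj x w ∨ G.Adj y z ∨ G.Adj y w)
    (hpath : ∀ x y z, G.Adj x y → G.Adj y z → x ≠ z → ¬ G.Adj x z → H.Adj x y ∨ H.Adj y z)
    (k : ℕ) (hk : ¬ G.Colorable k) :
    ∃ f : Fin (k + 1) → Set V,
      (∀ i, (G.induce (f i)).Connected) ∧
      (∀ i j, i ≠ j → Disjoint (f i) (f j)) ∧
      (∀ i j, i ≠ j → ∃ u ∈ f i, ∃ v ∈ f j, G.Adj u v) :=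
  Pool.Agent.T2F.full (H := H) ⟨hsub, hjoin, hpath⟩ hk

end Pool.Agent.Results.MP_b47bfb_co.FullTransversal
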