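import Mathlib
import Pool.Agent.HM.Final
import Pool.Agent.HM.Reduce
import Pool.Agent.T2S.Room

/-!
# Minimal counterexamples to Hadwiger's conjecture

Every counterexample to Hadwiger's conjecture has an induced minor which is a counterexample and has
at least `2 chi` vertices, or has `2 chi - 1` vertices and no stable set with three elements.
-/

set_option autoImplicit false

namespace Pool.Agent.MC

open Finset Pool.Agent.CA31 Pool.Agent.CA72 Pool.Agent.CA31C Pool.Agent.T3
open scoped Classical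

/-- quotients of quotients -/
theorem qg_qg {V W X : Type} {G : SimpleGraph V} {b : W → Set V} {f : X → Set W}
    (hd : ∀ i j, i ≠ j → Disjoint (f i) (f j)) :
    QG G (fun x => {v | ∃ w ∈ f x, v ∈ b w}) = QG (QG G b) f := by
  ext x y
  rw [QG_adj, QG_adj]
  constructor
  · rintro ⟨hxy, u, ⟨w, hw, hu⟩, v, ⟨w', hw', hv⟩, huv⟩
    refine ⟨hxy, w, hw, w', hw', ?_⟩
    rw [QG_adj]
    refine ⟨?_, u, hu, v, hv, huv⟩
    rintro rfl
    exact Set.disjoint_left.1 (hd x y hxy) hw hw'
  · rintro ⟨hxy, w, hw, w', hw', h⟩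
    rw [QG_adj] at h
    obtain ⟨-, u, hu, v, hv, huv⟩ := h
    exact ⟨hxy, u, ⟨w, hw, hu⟩, v, ⟨w', hw', hv⟩, huv⟩

/-- an induced minor which is a minimal counterexample -/
theorem exists_min {V : Type} [Fintype V] {G : SimpleGraph V} {k : ℕ} (hk : ¬ G.Colorable k)
    (hno : ¬ HasMinor G (k + 1)) :
    ∃ (W : Type) (_ : Fintype W) (b : W → Set V) (m : ℕ), m ≤ k ∧
      (∀ i, (G.induce (b i)).Connected) ∧ (∀ i j, i ≠ j → Disjoint (b i) (b j)) ∧
      ¬ (QG G b).Colorable m ∧ ¬ HasMinor (QG G b) (m + 1) ∧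
      ∀ (X : Type) [Fintype X] (f : X → Set W), (∀ i, ((QG G b).induce (f i)).Connected) →
        (∀ i j, i ≠ j → Disjoint (f i) (f j)) → Fintype.card X < Fintype.card W → ∀ t : ℕ,
        ¬ (QG (QG G b) f).Colorable t → HasMinor (QG (QG G b) f) (t + 1) := by
  let P : ℕ → Prop := fun n => ∃ (W : Type) (_ : Fintype W) (b : W → Set V) (m : ℕ), m ≤ k ∧
      (∀ i, (G.induce (b i)).Connected) ∧ (∀ i j, i ≠ j → Disjoint (b i) (b j)) ∧
      ¬ (QG G b).Colorable m ∧ ¬ HasMinor (QG G b) (m + 1) ∧ Fintype.card W = n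
  have hP : ∃ n, P n := by
    have hs : QG G (fun v : V => ({v} : Set V)) = G := by
      ext x y
      rw [QG_adj]
      constructor
      · rintro ⟨-, u, hu, v, hv, huv⟩
        rw [Set.mem_singleton_iff] at hu hv
        rw [hu, hv] at huv
        exact huv
      · intro hxy
        exact ⟨hxy.ne, x, rfl, y, rfl, hxy⟩
    refine ⟨Fintype.card V, V, inferInstance, fun v => {v}, k, le_rfl, fun i => singleton_conn G i,
      ?_, ?_, ?_, rfl⟩
    · intro i j hij
      rw [Set.disjoint_singleton]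
      exact hij
    · rw [hs]; exact hk
    · rw [hs]; exact hno
  obtain ⟨W, fW, b, m, hm, hc, hd, hcol, hmin, hcard⟩ := Nat.find_spec hP
  refine ⟨W, fW, b, m, hm, hc, hd, hcol, hmin, ?_⟩
  intro X _ f hfc hfd hlt t ht
  by_contra hcon
  rw [hcard] at hlt
  apply Nat.find_min hP hlt
  have hq := qg_qg (G := G) (b := b) hfd
  have hc' : ∀ i, (G.induce {v | ∃ w ∈ f i, v ∈ b w}).Connected := fun i => conn_union hc (hfc i)
  have hd' : ∀ i j, i ≠ j → Disjoint ({v | ∃ w ∈ f i, v ∈ b w} : Set V) {v | ∃ w ∈ f j, v ∈ b w} := by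
    intro i j hij
    rw [Set.disjoint_left]
    rintro v ⟨w, hw, hv⟩ ⟨w', hw', hv'⟩
    have hne : w ≠ w' := by
      rintro rfl
      exact Set.disjoint_left.1 (hfd i j hij) hw hw'
    exact Set.disjoint_left.1 (hd w w' hne) hv hv'
  rcases le_or_gt t k with htk | htk
  · refine ⟨X, inferInstance, _, t, htk, hc', hd', ?_, ?_, rfl⟩
    · rw [hq]; exact ht
    · rw [hq]; exact hcon
  · refine ⟨X, inferInstance, _, k, le_rfl, hc', hd', ?_, ?_, rfl⟩
    · rw [hq]
      exact fun h => ht (h.mono htk.le)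
    · exact fun h => hno (hasMinor_of_quot hc' hd' h)

/-- from induced minors to induced subgraphs -/
theorem min_induce {V : Type} [Fintype V] {G : SimpleGraph V}
    (hmin : ∀ (X : Type) [Fintype X] (f : X → Set V), (∀ i, (G.induce (f i)).Connected) →
        (∀ i j, i ≠ j → Disjoint (f i) (f j)) → Fintype.card X < Fintype.card V → ∀ t : ℕ,
        ¬ (QG G f).Colorable t → HasMinor (QG G f) (t + 1)) (A : Set V) (hA : A ≠ Set.univ) (t : ℕ)
    (ht : ¬ (G.induce A).Colorable t) : HasMinor (G.induce A) (t + 1) := by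
  obtain ⟨v, hv⟩ := (Set.ne_univ_iff_exists_notMem A).1 hA
  have hlt : Fintype.card A < Fintype.card V := Fintype.card_subtype_lt (x := v) hv
  have h1 := hmin A (fun a => {a.1}) (fun i => singleton_conn G i.1) (fun i j hij => by
    rw [Set.disjoint_singleton]
    exact fun e => hij (Subtype.ext e)) hlt t
  rw [T2S.qg_single] at h1
  exact h1 ht

theorem th_of_colorable {V : Type} [Fintype V] {G : SimpleGraph V} {S : Finset V} {p : V → Prop}
    (hp : ∀ v, p v ↔ v ∈ S) {t : ℕ} : (G.induce {v | p v}).Colorable t ↔ HM.th G S ≤ t := by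
  rw [HM.th_le_iff]
  constructor
  · rintro ⟨C⟩
    refine ⟨fun v => if h : p v then (C ⟨v, h⟩ : ℕ) else 0, ?_, ?_⟩
    · intro v hv
      have hv' := (hp v).2 hv
      simp only [hv', dif_pos]
      exact (C ⟨v, hv'⟩).2
    · intro u hu v hv huv
      have hu' := (hp u).2 hu
      have hv' := (hp v).2 hv
      simp only [hu', hv', dif_pos]
      intro he
      exact C.valid (show (G.induce {v | p v}).Adj ⟨u, hu'⟩ ⟨v, hv'⟩ from huv) (Fin.ext he)
  · rintro ⟨φ, h1, h2⟩
    refine ⟨SimpleGraph.Coloring.mk (fun x => (⟨φ x.1, h1 _ ((hp x.1).1 x.2)⟩ : Fin t)) ?_⟩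
    intro x y hxy he
    exact h2 _ ((hp x.1).1 x.2) _ ((hp y.1).1 y.2) hxy (congrArg Fin.val he)

/-- the structure of a minimal counterexample -/
theorem structure_min {V : Type} [Fintype V] {G : SimpleGraph V} {k : ℕ}
    (hk : ¬ G.Colorable k) (hno : ¬ HasMinor G (k + 1))
    (hmin : ∀ (X : Type) [Fintype X] (f : X → Set V), (∀ i, (G.induce (f i)).Connected) →
        (∀ i j, i ≠ j → Disjoint (f i) (f j)) → Fintype.card X < Fintype.card V → ∀ t : ℕ,
        ¬ (QG G f).Colorable t → HasMinor (QG G f) (t + 1)) :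
    (∀ v, (G.induce {w | w ≠ v}).Colorable k) ∧
    (2 * k + 2 ≤ Fintype.card V ∨
      (Fintype.card V = 2 * k + 1 ∧
        (∀ a b c : V, a ≠ b → a ≠ c → b ≠ c → G.Adj a b ∨ G.Adj a c ∨ G.Adj b c) ∧
        ∀ u v, u ≠ v → ¬ G.Adj u v →
          ¬ (G.induce {w | w ≠ u ∧ w ≠ v}).Colorable (k - 1) ∧
          (∀ x, x ≠ u → x ≠ v → (G.induce {w | w ≠ u ∧ w ≠ v ∧ w ≠ x}).Colorable (k - 1)) ∧
          ((G.induce {w | w ≠ u ∧ w ≠ v})ᶜ).Preconnected)) := by
  have hcc : ConCrit G k := by
    intro W _ f hc hd hlt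
    by_contra hcol
    exact hno (hasMinor_of_quot hc hd (hmin W f hc hd hlt k hcol))
  have hmin' := min_induce hmin
  have hcrit : ∀ v, (G.induce {w | w ≠ v}).Colorable k := by
    intro v
    by_contra hcol
    apply hno
    refine hasMinor_of_induce (A := {w | w ≠ v}) (hmin' _ ?_ k hcol)
    rw [Set.ne_univ_iff_exists_notMem]
    exact ⟨v, fun h => h rfl⟩
  refine ⟨hcrit, ?_⟩
  have hconn : Gᶜ.Preconnected := by
    by_contra hcon
    unfold SimpleGraph.Preconnected at hcon
    push Not at hcon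
    obtain ⟨u, v, huv⟩ := hcon
    set A : Set V := {w | Gᶜ.Reachable u w} with hA
    have huA : u ∈ A := SimpleGraph.Reachable.refl u
    have hvA : v ∉ A := huv
    have hjoin : ∀ a ∈ A, ∀ b ∈ Aᶜ, G.Adj a b := by
      intro a ha b hb
      by_contra h
      have hne : a ≠ b := by
        rintro rfl
        exact hb ha
      have h1 : Gᶜ.Adj a b := by
        rw [SimpleGraph.compl_adj]
        exact ⟨hne, h⟩
      exact hb (SimpleGraph.Reachable.trans ha h1.reachable)
    have hAu : A ≠ Set.univ := by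
      rw [Set.ne_univ_iff_exists_notMem]
      exact ⟨v, hvA⟩
    have hAcu : Aᶜ ≠ Set.univ := by
      rw [Set.ne_univ_iff_exists_notMem]
      exact ⟨u, fun h => h huA⟩
    obtain ⟨a, ha1, ha2⟩ := exists_chi (G.induce A)
    obtain ⟨b, hb1, hb2⟩ := exists_chi (G.induce Aᶜ)
    have hmA : HasMinor (G.induce A) a := minor_of_chi (fun t ht => hmin' A hAu t ht) ha2
    have hmB : HasMinor (G.induce Aᶜ) b := minor_of_chi (fun t ht => hmin' Aᶜ hAcu t ht) hb2
    have hab : k + 1 ≤ a + b := by
      by_contra hlt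
      exact hk ((colorable_join ha1 hb1).mono (by omega))
    exact hno (hasMinor_mono hab (hasMinor_join hjoin hmA hmB))
  have hgal := gallai_card hk hcrit hconn
  rcases Nat.lt_or_ge (2 * k + 1) (Fintype.card V) with h1 | h1
  · exact Or.inl h1
  · right
    have hn : Fintype.card V = 2 * k + 1 := le_antisymm h1 hgal
    have hα : ∀ a b c : V, a ≠ b → a ≠ c → b ≠ c → G.Adj a b ∨ G.Adj a c ∨ G.Adj b c :=
      fun a b c hab hac hbc => HM.alpha_two hk hcc hmin' hno hn a b c hab hac hbc
    refine ⟨hn, hα, ?_⟩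
    · intro u v huv hadj
      have hctx := HM.ctx_of hk hcc hmin' hno hn
      have hkpos : 1 ≤ k := by
        by_contra hlt
        have hk0 : k = 0 := by omega
        have hle : ({u, v} : Finset V).card ≤ Fintype.card V := by
          rw [← card_univ]
          exact card_le_card (subset_univ _)
        rw [card_pair huv] at hle
        omega
      obtain ⟨-, h5, h6⟩ := hctx.maxstable hkpos (T := {u, v}) (by
        intro x hx y hy
        rw [mem_insert, mem_singleton] at hx hy
        rcases hx with rfl | rfl <;> rcases hy with rfl | rfl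
        · exact G.loopless.irrefl _
        · exact hadj
        · exact fun e => hadj e.symm
        · exact G.loopless.irrefl _) (by
        intro x hx
        rw [mem_insert, mem_singleton, not_or] at hx
        rcases hα x u v hx.1 hx.2 huv with h | h | h
        · exact ⟨u, by simp, h⟩
        · exact ⟨v, by simp, h⟩
        · exact absurd h hadj)
      have hmemc : ∀ x, (x ≠ u ∧ x ≠ v) ↔ x ∈ ({u, v} : Finset V)ᶜ := by
        intro x
        rw [mem_compl, mem_insert, mem_singleton, not_or]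
      refine ⟨?_, ?_, ?_⟩
      · intro hcol
        rw [th_of_colorable (S := ({u, v} : Finset V)ᶜ) hmemc] at hcol
        have h7 := HM.th_union_le (G := G) {u, v} ({u, v} : Finset V)ᶜ
        rw [union_compl] at h7
        have h8 := HM.th_pair_le hadj
        have h9 := hctx.nc
        omega
      · intro x hxu hxv
        rw [th_of_colorable (S := (({u, v} : Finset V)ᶜ).erase x)]
        · have := h5 x (by
            rw [mem_insert, mem_singleton, not_or]
            exact ⟨hxu, hxv⟩)
          omega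
        · intro w
          rw [mem_erase, mem_compl, mem_insert, mem_singleton, not_or]
          tauto
      · have he : (({u, v} : Finset V)ᶜ : Finset V) = (univ.filter (fun w => w ≠ u ∧ w ≠ v)) := by
          ext x
          rw [← hmemc]
          simp
        intro x y
        have hx : (x.1 : V) ∈ ((({u, v} : Finset V)ᶜ : Finset V) : Set V) := by
          rw [mem_coe]
          exact (hmemc x.1).1 x.2
        have hy : (y.1 : V) ∈ ((({u, v} : Finset V)ᶜ : Finset V) : Set V) := by
          rw [mem_coe]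
          exact (hmemc y.1).1 y.2
        have h10 := h6 ⟨x.1, hx⟩ ⟨y.1, hy⟩
        let e : (Gᶜ.induce ((({u, v} : Finset V)ᶜ : Finset V) : Set V)) →g
            (G.induce {w | w ≠ u ∧ w ≠ v})ᶜ :=
          { toFun := fun z => ⟨z.1, (hmemc z.1).2 (mem_coe.1 z.2)⟩
            map_rel' := fun {a b} hab => by
              rw [SimpleGraph.compl_adj]
              have hab' : Gᶜ.Adj a.1 b.1 := hab
              rw [SimpleGraph.compl_adj] at hab'
              refine ⟨fun h => ?_, fun h => hab'.2 h⟩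
              have h' := Subtype.ext_iff.1 h
              exact hab'.1 h' }
        exact h10.map e

/-- every counterexample to Hadwiger's conjecture contains, as an induced minor, a minimal one with
the structure above -/
theorem main {V : Type} [Fintype V] (G : SimpleGraph V) (k : ℕ) (hk : ¬ G.Colorable k)
    (hno : ¬ HasMinor G (k + 1)) :
    ∃ (W : Type) (_ : Fintype W) (b : W → Set V) (G' : SimpleGraph W) (m : ℕ), m ≤ k ∧
      (∀ i, (G.induce (b i)).Connected) ∧ (∀ i j, i ≠ j → Disjoint (b i) (b j)) ∧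
      (∀ i j, G'.Adj i j ↔ i ≠ j ∧ ∃ u ∈ b i, ∃ v ∈ b j, G.Adj u v) ∧
      ¬ G'.Colorable m ∧ ¬ HasMinor G' (m + 1) ∧
      (∀ (X : Type) (_ : Fintype X) (c : X → Set W) (G'' : SimpleGraph X),
        (∀ i, (G'.induce (c i)).Connected) → (∀ i j, i ≠ j → Disjoint (c i) (c j)) →
        (∀ i j, G''.Adj i j ↔ i ≠ j ∧ ∃ u ∈ c i, ∃ v ∈ c j, G'.Adj u v) →
        Fintype.card X < Fintype.card W → ∀ t : ℕ, ¬ G''.Colorable t → HasMinor G'' (t + 1)) ∧
      (2 * m + 2 ≤ Fintype.card W ∨
        (Fintype.card W = 2 * m + 1 ∧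
          (∀ a b c : W, a ≠ b → a ≠ c → b ≠ c → G'.Adj a b ∨ G'.Adj a c ∨ G'.Adj b c) ∧
          ∀ u v, u ≠ v → ¬ G'.Adj u v →
            ¬ (G'.induce {w | w ≠ u ∧ w ≠ v}).Colorable (m - 1) ∧
            (∀ x, x ≠ u → x ≠ v → (G'.induce {w | w ≠ u ∧ w ≠ v ∧ w ≠ x}).Colorable (m - 1)) ∧
            ((G'.induce {w | w ≠ u ∧ w ≠ v})ᶜ).Preconnected)) := by
  obtain ⟨W, fW, b, m, hm, hc, hd, hcol, hmin, hall⟩ := exists_min hk hno
  refine ⟨W, fW, b, QG G b, m, hm, hc, hd, fun i j => QG_adj, hcol, hmin, ?_,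
    (structure_min hcol hmin hall).2⟩
  intro X _ c G'' hcc hcd hG'' hlt t ht
  have he : G'' = QG (QG G b) c := by
    ext x y
    rw [hG'' x y, QG_adj]
  subst he
  exact hall X c hcc hcd hlt t ht

end Pool.Agent.MC
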