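import Mathlib
import Pool.Agent.MC.Main

/-!
The structure of minimal counterexamples to Hadwiger's conjecture with few vertices.
-/

set_option autoImplicit false

namespace Pool.Agent.MC.MinimalCounterexample

/-- `G` has a complete minor of order `t`: `t` pairwise disjoint connected vertex sets, any two of
them joined by an edge -/
def CliqueMinor {V : Type} (G : SimpleGraph V) (t : ℕ) : Prop :=
  ∃ f : Fin t → Set V, (∀ i, (G.induce (f i)).Connected) ∧
    (∀ i j, i ≠ j → Disjoint (f i) (f j)) ∧ (∀ i j, i ≠ j → ∃ u ∈ f i, ∃ v ∈ f j, G.Adj u v)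

/-- `G'` is obtained from `G` by deleting vertices and contracting connected vertex sets: the bags
`b i` are disjoint and connected, and `i`, `j` are adjacent in `G'` exactly when an edge of `G` joins
their bags -/
def InducedMinor {V W : Type} (G' : SimpleGraph W) (G : SimpleGraph V) : Prop :=
  ∃ b : W → Set V, (∀ i, (G.induce (b i)).Connected) ∧ (∀ i j, i ≠ j → Disjoint (b i) (b j)) ∧
    ∀ i j, G'.Adj i j ↔ i ≠ j ∧ ∃ u ∈ b i, ∃ v ∈ b j, G.Adj u v

/-- Let `G` be a finite graph without proper colouring with `k` colours and without `K_{k+1}` minor.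
Then for some `m ≤ k` there is an induced minor `G'` of `G` without proper colouring with `m` colours
and without `K_{m+1}` minor, all of whose induced minors on fewer vertices satisfy Hadwiger's
conjecture, and such that `G'` has at least `2 m + 2` vertices, or it has `2 m + 1` vertices, no
three pairwise nonadjacent vertices, and for any two nonadjacent vertices `u`, `v` the graph
`G' - u - v` is vertex-critical with chromatic number `m` and its complement is connected. -/
theorem result {V : Type} [Fintype V] (G : SimpleGraph V) (k : ℕ) (hk : ¬ G.Colorable k)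
    (hno : ¬ CliqueMinor G (k + 1)) :
    ∃ (W : Type) (_ : Fintype W) (G' : SimpleGraph W) (m : ℕ), m ≤ k ∧ InducedMinor G' G ∧
      ¬ G'.Colorable m ∧ ¬ CliqueMinor G' (m + 1) ∧
      (∀ (X : Type) (_ : Fintype X) (G'' : SimpleGraph X), InducedMinor G'' G' →
        Fintype.card X < Fintype.card W → ∀ t : ℕ, ¬ G''.Colorable t → CliqueMinor G'' (t + 1)) ∧
      (2 * m + 2 ≤ Fintype.card W ∨
        (Fintype.card W = 2 * m + 1 ∧
          (∀ a b c : W, a ≠ b → a ≠ c → b ≠ c → G'.Adj a b ∨ G'.Adj a c ∨ G'.Adj b c) ∧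
          ∀ u v, u ≠ v → ¬ G'.Adj u v →
            ¬ (G'.induce {w | w ≠ u ∧ w ≠ v}).Colorable (m - 1) ∧
            (∀ x, x ≠ u → x ≠ v → (G'.induce {w | w ≠ u ∧ w ≠ v ∧ w ≠ x}).Colorable (m - 1)) ∧
            ((G'.induce {w | w ≠ u ∧ w ≠ v})ᶜ).Connected)) := by
  obtain ⟨W, fW, b, G', m, hm, hc, hd, hG', hcol, hmin, hall, hstr⟩ :=
    Pool.Agent.MC.main G k hk hno
  refine ⟨W, fW, G', m, hm, ⟨b, hc, hd, hG'⟩, hcol, hmin, ?_, ?_⟩
  · rintro X fX G'' ⟨c, hcc, hcd, hG''⟩ hlt t ht
    exact hall X fX c G'' hcc hcd hG'' hlt t ht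
  · rcases hstr with h | ⟨hn, hα, h⟩
    · exact Or.inl h
    · refine Or.inr ⟨hn, hα, fun u v huv hadj => ?_⟩
      obtain ⟨h1, h2, h3⟩ := h u v huv hadj
      refine ⟨h1, h2, ?_⟩
      have hne : Nonempty {w | w ≠ u ∧ w ≠ v} := by
        by_contra hcon
        have he : IsEmpty {w | w ≠ u ∧ w ≠ v} := not_nonempty_iff.1 hcon
        exact h1 ⟨SimpleGraph.Coloring.mk (fun x => he.elim x) (fun {x _} _ => he.elim x)⟩
      exact SimpleGraph.Connected.mk h3

end Pool.Agent.MC.MinimalCounterexample
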